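import Mathlib
import Pool.Agent.Work.MP_d7201b_al_LN31.Basic

/-!
# The final chain

`σ : Γ →* B`, `5 = 0` in `B`, `(σ g - 1) ^ 4 = 0` for all `g`, `B` semiprime over the group, every
cubic element is trivial, and the augmentation ideals of `2`-generator subgroups have vanishing
twelfth power.  Then `σ = 1`.
-/

set_option autoImplicit false

namespace Pool.Agent.Work.MP_d7201b_al.LN

universe u v

open scoped commutatorElement

/-! ### a commutative computation -/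

lemma comm_sq_aux {R : Type*} [CommRing R] (x y : R) (h5 : (5 : R) = 0) (hx : x ^ 4 = 0)
    (hy : y ^ 4 = 0) (hP : (x + y + x * y) ^ 4 = 0) (hQ : (x - y) ^ 4 = 0) :
    x ^ 2 * y ^ 2 = 0 := by
  have hA : x ^ 3 * y ^ 3 = 0 := by
    linear_combination (-x ^ 2) * hP +
      (6*y^2+12*y^3+6*y^4+4*x*y+12*x*y^2+12*x*y^3+4*x*y^4+x^2+4*x^2*y+6*x^2*y^2+4*x^2*y^3
        +x^2*y^4) * hx + (x^2+4*x^3) * hy + x ^ 3 * y ^ 3 * h5
  have hB1 : 6 * (x ^ 3 * y ^ 2) + 4 * (x ^ 2 * y ^ 3) = 0 := by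
    linear_combination x * hP -
      (4*y+12*y^2+12*y^3+4*y^4+x+4*x*y+6*x*y^2+4*x*y^3+x*y^4) * hx -
      (x+4*x^2+6*x^3) * hy - 12 * hA
  have hB2 : 6 * (x ^ 3 * y ^ 2) - 4 * (x ^ 2 * y ^ 3) = 0 := by
    linear_combination x * hQ - (x - 4 * y) * hx - x * hy
  have hB : x ^ 3 * y ^ 2 = 0 := by
    linear_combination 3 * hB1 + 3 * hB2 - 7 * (x ^ 3 * y ^ 2) * h5
  have hC : x ^ 2 * y ^ 3 = 0 := by
    linear_combination 2 * hB1 - 2 * hB2 - 3 * (x ^ 2 * y ^ 3) * h5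
  have hD1 : 4 * (x * y ^ 3) + 6 * (x ^ 2 * y ^ 2) + 4 * (x ^ 3 * y) = 0 := by
    linear_combination hP - (1+4*y+6*y^2+4*y^3+y^4) * hx - (1+4*x+6*x^2+4*x^3) * hy
      - 12 * hC - 12 * hB - 12 * hA
  have hD2 : - 4 * (x * y ^ 3) + 6 * (x ^ 2 * y ^ 2) - 4 * (x ^ 3 * y) = 0 := by
    linear_combination hQ - hx - hy
  linear_combination 3 * hD1 + 3 * hD2 - 7 * (x ^ 2 * y ^ 2) * h5

lemma comm_sq {A : Type*} [Ring A] (x y : A) (hxy : x * y = y * x) (h5 : (5 : A) = 0)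
    (hx : x ^ 4 = 0) (hy : y ^ 4 = 0) (hP : (x + y + x * y) ^ 4 = 0) (hQ : (x - y) ^ 4 = 0) :
    x ^ 2 * y ^ 2 = 0 := by
  have hc : ∀ a ∈ ({x, y} : Set A), ∀ b ∈ ({x, y} : Set A), a * b = b * a := by
    rintro a (rfl | rfl) b (rfl | rfl) <;> first | rfl | exact hxy | exact hxy.symm
  let _ : CommRing (Subring.closure ({x, y} : Set A)) := Subring.closureCommRingOfComm hc
  let X : Subring.closure ({x, y} : Set A) := ⟨x, Subring.subset_closure (by simp)⟩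
  let Y : Subring.closure ({x, y} : Set A) := ⟨y, Subring.subset_closure (by simp)⟩
  have := comm_sq_aux X Y (Subtype.ext h5) (Subtype.ext hx) (Subtype.ext hy) (Subtype.ext hP)
    (Subtype.ext hQ)
  exact congrArg Subtype.val this

/-! ### commuting group elements -/

variable {Γ : Type u} [Group Γ] {B : Type v} [Ring B]

lemma comm_pair (σ : Γ →* B) (h5 : (5 : B) = 0) (h4 : ∀ g, (σ g - 1) ^ 4 = 0) (z w : Γ)
    (h : σ z * σ w = σ w * σ z) : (σ z - 1) ^ 2 * (σ w - 1) ^ 2 = 0 := by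
  refine comm_sq _ _ ?_ h5 (h4 z) (h4 w) ?_ ?_
  · simp only [sub_mul, mul_sub, h, one_mul, mul_one]; abel
  · have : σ z - 1 + (σ w - 1) + (σ z - 1) * (σ w - 1) = σ (z * w) - 1 := by
      rw [map_mul]; noncomm_ring
    rw [this]; exact h4 _
  · have h1 : σ w⁻¹ * σ w = 1 := by rw [← map_mul]; simp
    have h2 : σ w * σ w⁻¹ = 1 := by rw [← map_mul]; simp
    have h3 : σ z * σ w⁻¹ = σ w⁻¹ * σ z := by
      calc σ z * σ w⁻¹ = (σ w⁻¹ * σ w) * (σ z * σ w⁻¹) := by rw [h1, one_mul]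
        _ = σ w⁻¹ * (σ w * σ z) * σ w⁻¹ := by noncomm_ring
        _ = σ w⁻¹ * (σ z * σ w) * σ w⁻¹ := by rw [h]
        _ = σ w⁻¹ * σ z * (σ w * σ w⁻¹) := by noncomm_ring
        _ = σ w⁻¹ * σ z := by rw [h2, mul_one]
    have e : σ z - 1 - (σ w - 1) = (σ (z * w⁻¹) - 1) * σ w := by
      rw [map_mul, sub_mul, mul_assoc, h1]; noncomm_ring
    have hc : Commute (σ (z * w⁻¹) - 1) (σ w) := by
      rw [Commute, SemiconjBy, map_mul]
      simp only [sub_mul, mul_sub, one_mul, mul_one]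
      rw [mul_assoc, h1, mul_one, ← mul_assoc, ← h, mul_assoc, h2, mul_one]
    rw [e, hc.mul_pow, h4, zero_mul]

/-- If all conjugates of `c` commute with `c`, then `c` is trivial. -/
theorem eq_one_of_comm (σ : Γ →* B) (h5 : (5 : B) = 0) (h4 : ∀ g, (σ g - 1) ^ 4 = 0)
    (hsp : ∀ a : B, (∀ g, a * σ g * a = 0) → a = 0)
    (hD3 : ∀ c, (σ c - 1) ^ 3 = 0 → σ c = 1) (c : Γ)
    (hc : ∀ h : Γ, σ c * σ (h * c * h⁻¹) = σ (h * c * h⁻¹) * σ c) : σ c = 1 := by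
  apply hD3
  apply hsp
  intro h
  have h1 : σ h * σ h⁻¹ = 1 := by rw [← map_mul]; simp
  have h2 : σ h⁻¹ * σ h = 1 := by rw [← map_mul]; simp
  have hs : SemiconjBy (σ h) (σ c - 1) (σ (h * c * h⁻¹) - 1) := by
    rw [SemiconjBy, map_mul, map_mul, sub_mul, mul_assoc (σ h * σ c), h2, mul_one, one_mul,
      mul_sub, mul_one]
  have e : σ h * (σ c - 1) ^ 3 = (σ (h * c * h⁻¹) - 1) ^ 3 * σ h := (hs.pow_right 3).eq
  rw [mul_assoc, e, ← mul_assoc]
  have h3 := comm_pair σ h5 h4 c (h * c * h⁻¹) (hc h)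
  generalize σ (h * c * h⁻¹) - 1 = y at *
  generalize σ c - 1 = x at *
  calc x ^ 3 * y ^ 3 * σ h = x * (x ^ 2 * y ^ 2) * y * σ h := by noncomm_ring
    _ = 0 := by rw [h3]; simp

/-! ### powers of the augmentation ideal of a group -/

lemma D_mul (τ : Γ →* B) (m n : ℕ) {x y : B} (hx : x ∈ D τ m) (hy : y ∈ D τ n) :
    x * y ∈ D τ (m + n) := by
  have key : ∀ z ∈ D τ m, ∀ l : List Γ, l.length = n → z * dp τ l ∈ D τ (m + n) := by
    intro z hz l hl
    refine AddSubgroup.closure_induction (p := fun z _ => z * dp τ l ∈ D τ (m + n)) ?_ ?_ ?_ ?_ hz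
    · rintro z ⟨g, l', hl', rfl⟩
      exact AddSubgroup.subset_closure ⟨g, l' ++ l, by simp [hl, hl'], by rw [dp_append, mul_assoc]⟩
    · simp [AddSubgroup.zero_mem]
    · intro a b _ _ ha hb; rw [add_mul]; exact AddSubgroup.add_mem _ ha hb
    · intro a _ ha; rw [neg_mul]; exact AddSubgroup.neg_mem _ ha
  refine AddSubgroup.closure_induction (p := fun y _ => x * y ∈ D τ (m + n)) ?_ ?_ ?_ ?_ hy
  · rintro y ⟨g, l, hl, rfl⟩
    rw [← mul_assoc]
    exact key _ (D_mul_right τ m hx g) l hl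
  · simp [AddSubgroup.zero_mem]
  · intro a b _ _ ha hb; rw [mul_add]; exact AddSubgroup.add_mem _ ha hb
  · intro a _ ha; rw [mul_neg]; exact AddSubgroup.neg_mem _ ha

lemma D_one (τ : Γ →* B) (g : Γ) : τ g - 1 ∈ D τ 1 := by
  have := dp_mem_D τ [g]
  simpa using this

lemma D_comm (τ : Γ →* B) (m n : ℕ) (a b : Γ) (ha : τ a - 1 ∈ D τ m) (hb : τ b - 1 ∈ D τ n) :
    τ ⁅a, b⁆ - 1 ∈ D τ (m + n) := by
  have h1 : τ a * τ a⁻¹ = 1 := by rw [← map_mul]; simp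
  have h2 : τ b * τ b⁻¹ = 1 := by rw [← map_mul]; simp
  have e : τ ⁅a, b⁆ - 1 = ((τ a - 1) * (τ b - 1) - (τ b - 1) * (τ a - 1)) * τ (a⁻¹ * b⁻¹) := by
    have : ((τ a - 1) * (τ b - 1) - (τ b - 1) * (τ a - 1)) * (τ a⁻¹ * τ b⁻¹)
        = τ a * τ b * τ a⁻¹ * τ b⁻¹ - τ b * (τ a * τ a⁻¹) * τ b⁻¹ := by noncomm_ring
    rw [commutatorElement_def, map_mul, map_mul, map_mul, map_mul, this, h1, mul_one, h2]
  rw [e]
  refine D_mul_right τ _ (AddSubgroup.sub_mem _ (D_mul τ m n ha hb) ?_) _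
  rw [add_comm m n]
  exact D_mul τ n m hb ha

lemma D_eq_zero (τ : Γ →* B) (n : ℕ) (h : ∀ l : List Γ, l.length = n → dp τ l = 0) {x : B}
    (hx : x ∈ D τ n) : x = 0 := by
  refine AddSubgroup.closure_induction (p := fun x _ => x = 0) ?_ rfl ?_ ?_ hx
  · rintro x ⟨g, l, hl, rfl⟩; rw [h l hl, mul_zero]
  · intro a b _ _ ha hb; rw [ha, hb, add_zero]
  · intro a _ ha; rw [ha, neg_zero]

/-! ### index two modulo a central multiplier -/

lemma ring_lem0 (Y x y : B) (hxY : x * Y = Y * x) (ha : Y * x ^ 2 = 0) (hb : Y * y ^ 2 = 0)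
    (hab : Y * (x + y + x * y) ^ 2 = 0) :
    Y * (x * y) + Y * (y * x) + Y * (y * x * y) + Y * (x * y * x) + Y * (x * y * x) * y = 0 := by
  have e : Y * (x + y + x * y) ^ 2
      = (Y * (x * y) + Y * (y * x) + Y * (y * x * y) + Y * (x * y * x) + Y * (x * y * x) * y)
        + Y * x ^ 2 + Y * x ^ 2 * y + Y * y ^ 2 + (Y * x) * y ^ 2 := by noncomm_ring
  rw [e, ha, hb, ← hxY, mul_assoc x Y, hb] at hab
  simpa using hab

lemma ring_lem1 (Y x y : B) (hxY : x * Y = Y * x) (ha : Y * x ^ 2 = 0) (hb : Y * y ^ 2 = 0)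
    (hab : Y * (x + y + x * y) ^ 2 = 0) : Y * (x * y * x) * (y + 1) = 0 := by
  have h0 := ring_lem0 Y x y hxY ha hb hab
  have h1 : x * (Y * (x * y) + Y * (y * x) + Y * (y * x * y) + Y * (x * y * x)
      + Y * (x * y * x) * y) = 0 := by rw [h0, mul_zero]
  have e : x * (Y * (x * y) + Y * (y * x) + Y * (y * x * y) + Y * (x * y * x)
      + Y * (x * y * x) * y) = (x * Y) * (x * y) + (x * Y) * (y * x) + (x * Y) * (y * x * y)
        + (x * Y) * (x * y * x) + (x * Y) * (x * y * x) * y := by noncomm_ring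
  rw [e, hxY] at h1
  have e2 : Y * x * (x * y) + Y * x * (y * x) + Y * x * (y * x * y) + Y * x * (x * y * x)
      + Y * x * (x * y * x) * y
      = Y * x ^ 2 * y + Y * x ^ 2 * (y * x) + Y * x ^ 2 * (y * x * y)
        + Y * (x * y * x) * (y + 1) := by noncomm_ring
  rw [e2, ha] at h1
  simpa using h1

lemma ring_lem2 (Y x y z : B) (h5 : (5 : B) = 0) (hxY : x * Y = Y * x)
    (h1 : Y * ((x + y + x * y) * z) = - (Y * (z * (x + y + x * y))))
    (hac : Y * (x * z) = - (Y * (z * x))) (hbc : Y * (y * z) = - (Y * (z * y))) :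
    Y * (x * (y * z)) = 0 := by
  have h3 : Y * (x * y * z) + Y * (z * x * y) = 0 := by
    have : Y * (x * y * z) + Y * (z * x * y) =
        (Y * ((x + y + x * y) * z) + Y * (z * (x + y + x * y)))
          - (Y * (x * z) + Y * (z * x)) - (Y * (y * z) + Y * (z * y)) := by noncomm_ring
    rw [this, h1, hac, hbc]
    simp
  have hca : Y * (z * x) = - (Y * (x * z)) := by rw [hac, neg_neg]
  have hcb : Y * (z * y) = - (Y * (y * z)) := by rw [hbc, neg_neg]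
  have h4 : Y * (z * x * y) = Y * (x * y * z) := by
    calc Y * (z * x * y) = (Y * (z * x)) * y := by noncomm_ring
      _ = - (Y * (x * z)) * y := by rw [hca]
      _ = - ((Y * x) * (z * y)) := by noncomm_ring
      _ = - ((x * Y) * (z * y)) := by rw [hxY]
      _ = - (x * (Y * (z * y))) := by noncomm_ring
      _ = x * (Y * (y * z)) := by rw [hcb]; noncomm_ring
      _ = (x * Y) * (y * z) := by noncomm_ring
      _ = (Y * x) * (y * z) := by rw [hxY]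
      _ = Y * (x * y * z) := by noncomm_ring
  rw [h4] at h3
  have h6 : Y * (x * y * z) = 3 * (Y * (x * y * z) + Y * (x * y * z)) - 5 * (Y * (x * y * z)) := by
    noncomm_ring
  have : Y * (x * (y * z)) = Y * (x * y * z) := by noncomm_ring
  rw [this, h6, h3, h5]
  simp

/-- If `Y` commutes with everything and kills all `(w - 1) ^ 2`, it kills products of three
`w - 1`. -/
lemma three (τ : Γ →* B) (h5 : (5 : B) = 0) (Y : B) (hY : ∀ w, Y * τ w = τ w * Y)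
    (h2 : ∀ w, Y * (τ w - 1) ^ 2 = 0) (l : List Γ) (hl : l.length = 3) : Y * dp τ l = 0 := by
  have hc : ∀ w, (τ w - 1) * Y = Y * (τ w - 1) := by
    intro w; rw [mul_sub, sub_mul, hY, mul_one, one_mul]
  have hinv : ∀ w, τ w * τ w⁻¹ = 1 := by intro w; rw [← map_mul]; simp
  have e0 : ∀ a b, τ (a * b) - 1 = (τ a - 1) + (τ b - 1) + (τ a - 1) * (τ b - 1) := by
    intro a b; rw [map_mul]; noncomm_ring
  have hab : ∀ a b, Y * ((τ a - 1) + (τ b - 1) + (τ a - 1) * (τ b - 1)) ^ 2 = 0 := by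
    intro a b; rw [← e0]; exact h2 _
  have hxyx : ∀ a b : Γ, Y * ((τ a - 1) * (τ b - 1) * (τ a - 1)) = 0 := by
    intro a b
    have e1 := ring_lem1 Y (τ a - 1) (τ b - 1) (hc a) (h2 a) (h2 b) (hab a b)
    rw [sub_add_cancel] at e1
    calc Y * ((τ a - 1) * (τ b - 1) * (τ a - 1))
        = Y * ((τ a - 1) * (τ b - 1) * (τ a - 1)) * (τ b * τ b⁻¹) := by rw [hinv, mul_one]
      _ = Y * ((τ a - 1) * (τ b - 1) * (τ a - 1)) * τ b * τ b⁻¹ := by rw [← mul_assoc]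
      _ = 0 := by rw [e1, zero_mul]
  have hanti : ∀ a b : Γ, Y * ((τ a - 1) * (τ b - 1)) = - (Y * ((τ b - 1) * (τ a - 1))) := by
    intro a b
    have h0 := ring_lem0 Y (τ a - 1) (τ b - 1) (hc a) (h2 a) (h2 b) (hab a b)
    rw [hxyx a b, hxyx b a] at h0
    simp only [add_zero, zero_mul] at h0
    exact eq_neg_of_add_eq_zero_left h0
  obtain ⟨a, b, c, rfl⟩ := List.length_eq_three.1 hl
  simp only [dp_cons, dp_nil, mul_one]
  refine ring_lem2 Y _ _ _ h5 (hc a) ?_ (hanti a c) (hanti b c)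
  rw [← e0]
  exact hanti _ _

/-! ### the chain -/

theorem chain (σ : Γ →* B) (h5 : (5 : B) = 0) (h4 : ∀ g, (σ g - 1) ^ 4 = 0)
    (hsp : ∀ a : B, (∀ g, a * σ g * a = 0) → a = 0)
    (hD3 : ∀ c, (σ c - 1) ^ 3 = 0 → σ c = 1)
    (h12 : ∀ g h : Γ, ∀ l : List Γ, (∀ x ∈ l, x ∈ Subgroup.closure {g, h}) → l.length = 12 →
      dp σ l = 0) (g : Γ) : σ g = 1 := by
  -- class at most two
  have key : ∀ g h : Γ, ∀ a b c : Subgroup.closure {g, h}, σ (⁅⁅a, b⁆, c⁆ : Subgroup.closure {g, h}) = 1 := by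
    intro g h
    set H := Subgroup.closure ({g, h} : Set Γ) with hH
    let τ : H →* B := σ.comp H.subtype
    have hτ : ∀ x : H, τ x = σ x := fun x => rfl
    have h12' : ∀ l : List H, l.length = 12 → dp τ l = 0 := by
      intro l hl
      have : dp τ l = dp σ (l.map Subtype.val) := by
        unfold dp; rw [List.map_map]; rfl
      rw [this]
      refine h12 g h _ ?_ (by simpa using hl)
      intro x hx
      obtain ⟨y, -, rfl⟩ := List.mem_map.1 hx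
      exact y.2
    have hz : ∀ x ∈ D τ 12, x = 0 := fun x hx => D_eq_zero τ 12 h12' hx
    have c3 : ∀ a b c : H, τ ⁅⁅a, b⁆, c⁆ - 1 ∈ D τ 3 := by
      intro a b c
      exact D_comm τ 2 1 _ _ (D_comm τ 1 1 _ _ (D_one τ a) (D_one τ b)) (D_one τ c)
    have c4 : ∀ a b c d : H, τ ⁅⁅⁅a, b⁆, c⁆, d⁆ = 1 := by
      intro a b c d
      have h1 : τ ⁅⁅⁅a, b⁆, c⁆, d⁆ - 1 ∈ D τ 4 := D_comm τ 3 1 _ _ (c3 a b c) (D_one τ d)
      have h2 : (τ ⁅⁅⁅a, b⁆, c⁆, d⁆ - 1) ^ 3 = 0 := by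
        apply hz
        have := D_mul τ 8 4 (D_mul τ 4 4 h1 h1) h1
        simpa [pow_succ] using this
      exact hD3 _ h2
    intro a b c
    apply hD3
    set z : H := ⁅⁅a, b⁆, c⁆ with hzdef
    have hcomm : ∀ w : H, τ z * τ w = τ w * τ z := by
      intro w
      have h1 := c4 a b c w
      rw [← hzdef, commutatorElement_def, map_mul, map_mul, map_mul] at h1
      have h2 : τ z⁻¹ * τ z = 1 := by rw [← map_mul]; simp
      have h3 : τ w⁻¹ * τ w = 1 := by rw [← map_mul]; simp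
      calc τ z * τ w = τ z * τ w * (τ z⁻¹ * (τ w⁻¹ * τ w) * τ z) := by rw [h3, mul_one, h2, mul_one]
        _ = (τ z * τ w * τ z⁻¹ * τ w⁻¹) * (τ w * τ z) := by noncomm_ring
        _ = τ w * τ z := by rw [h1, one_mul]
    have h2 : ∀ w : H, (τ z - 1) ^ 2 * (τ w - 1) ^ 2 = 0 := by
      intro w
      exact comm_pair σ h5 h4 z w (hcomm w)
    have h3 : ∀ l : List H, l.length = 3 → (τ z - 1) ^ 2 * dp τ l = 0 := by
      refine three τ h5 _ ?_ h2
      intro w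
      have : Commute (τ z - 1) (τ w) := by
        rw [Commute, SemiconjBy, sub_mul, mul_sub, hcomm, one_mul, mul_one]
      exact (this.pow_left 2)
    have h4' : ∀ x ∈ D τ 3, (τ z - 1) ^ 2 * x = 0 := by
      intro x hx
      refine AddSubgroup.closure_induction (p := fun x _ => (τ z - 1) ^ 2 * x = 0) ?_ ?_ ?_ ?_ hx
      · rintro x ⟨k, l, hl, rfl⟩
        have : Commute (τ z - 1) (τ k) := by
          rw [Commute, SemiconjBy, sub_mul, mul_sub, hcomm, one_mul, mul_one]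
        rw [← mul_assoc, (this.pow_left 2).eq, mul_assoc, h3 l hl, mul_zero]
      · simp
      · intro a b _ _ ha hb; rw [mul_add, ha, hb, add_zero]
      · intro a _ ha; rw [mul_neg, ha, neg_zero]
    have := h4' _ (c3 a b c)
    rw [← hzdef] at this
    show (τ z - 1) ^ 3 = 0
    rw [pow_succ]; exact this
  -- conclusion
  apply eq_one_of_comm σ h5 h4 hsp hD3
  intro h
  let g' : Subgroup.closure ({g, h} : Set Γ) := ⟨g, Subgroup.subset_closure (by simp)⟩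
  let h' : Subgroup.closure ({g, h} : Set Γ) := ⟨h, Subgroup.subset_closure (by simp)⟩
  have h1 : σ ⁅⁅h, g⁆, g⁆ = 1 := key g h h' g' g'
  have e : h * g * h⁻¹ = ⁅h, g⁆ * g := by rw [commutatorElement_def]; group
  rw [e, map_mul]
  have h2 : σ ⁅h, g⁆ * σ g = σ g * σ ⁅h, g⁆ := by
    rw [commutatorElement_def ⁅h, g⁆ g, map_mul, map_mul, map_mul] at h1
    have h2 : σ ⁅h, g⁆⁻¹ * σ ⁅h, g⁆ = 1 := by rw [← map_mul, inv_mul_cancel, map_one]
    have h3 : σ g⁻¹ * σ g = 1 := by rw [← map_mul]; simp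
    calc σ ⁅h, g⁆ * σ g
        = σ ⁅h, g⁆ * σ g * (σ ⁅h, g⁆⁻¹ * (σ g⁻¹ * σ g) * σ ⁅h, g⁆) := by
          rw [h3, mul_one, h2, mul_one]
      _ = (σ ⁅h, g⁆ * σ g * σ ⁅h, g⁆⁻¹ * σ g⁻¹) * (σ g * σ ⁅h, g⁆) := by noncomm_ring
      _ = σ g * σ ⁅h, g⁆ := by rw [h1, one_mul]
  calc σ g * (σ ⁅h, g⁆ * σ g) = σ g * (σ g * σ ⁅h, g⁆) := by rw [h2]
    _ = σ g * σ g * σ ⁅h, g⁆ := by rw [mul_assoc]
    _ = σ ⁅h, g⁆ * σ g * σ g := by
      rw [mul_assoc, ← h2, ← mul_assoc, ← h2]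

end Pool.Agent.Work.MP_d7201b_al.LN
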