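import Mathlib
import Pool.Agent.Work.MP_d7201b_al_LN31.Basic
import Pool.Agent.Work.MP_d7201b_al_LN.Chain

/-!
# The final chain, from finiteness of two-generator subgroups
-/

set_option autoImplicit false

namespace Pool.Agent.Work.MP_d7201b_al.LN

universe u v

open scoped commutatorElement

variable {Γ : Type u} [Group Γ] {B : Type v} [Ring B]

lemma D_mul_dp (τ : Γ →* B) (n : ℕ) {x : B} (hx : x ∈ D τ n) (l : List Γ) :
    x * dp τ l ∈ D τ n := by
  induction l generalizing x with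
  | nil => simpa using hx
  | cons g l ih =>
    rw [dp_cons, ← mul_assoc]
    apply ih
    rw [mul_sub, mul_one]
    exact sub_mem (D_mul_right τ n hx g) hx

lemma D_anti (τ : Γ →* B) {m n : ℕ} (h : m ≤ n) {x : B} (hx : x ∈ D τ n) : x ∈ D τ m := by
  refine AddSubgroup.closure_induction (p := fun x _ => x ∈ D τ m) ?_ (zero_mem _)
    (fun x y _ _ hx hy => add_mem hx hy) (fun x _ hx => neg_mem hx) hx
  rintro x ⟨g, l, hl, rfl⟩
  rw [← List.take_append_drop m l, dp_append, ← mul_assoc]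
  apply D_mul_dp
  exact AddSubgroup.subset_closure ⟨g, l.take m, by simp [hl, h], rfl⟩

lemma lcs_mem_D (τ : Γ →* B) (n : ℕ) :
    ∀ z ∈ (⊤ : Subgroup Γ).lowerCentralSeries n, τ z - 1 ∈ D τ (n + 1) := by
  induction n with
  | zero => intro z _; exact D_one τ z
  | succ n ih =>
    intro z hz
    rw [Subgroup.mem_lowerCentralSeries_succ_iff] at hz
    refine Subgroup.closure_induction (p := fun z _ => τ z - 1 ∈ D τ (n + 1 + 1)) ?_ ?_ ?_ ?_ hz
    · rintro x ⟨p, hp, q, -, rfl⟩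
      exact D_comm τ (n + 1) 1 p q (ih p hp) (D_one τ q)
    · simp
    · intro x y _ _ hx hy
      have e : τ (x * y) - 1 = (τ x - 1) * τ y + (τ y - 1) := by rw [map_mul]; noncomm_ring
      rw [e]
      exact add_mem (D_mul_right τ _ hx y) hy
    · intro x _ hx
      have h1 : τ x * τ x⁻¹ = 1 := by rw [← map_mul]; simp
      have e : τ x⁻¹ - 1 = - ((τ x - 1) * τ x⁻¹) := by rw [sub_mul, h1]; noncomm_ring
      rw [e]
      exact neg_mem (D_mul_right τ _ hx x⁻¹)

/-- A nilpotent group without cubic elements has class at most two. -/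
theorem class_two (τ : Γ →* B) (h5 : (5 : B) = 0) (h4 : ∀ g, (τ g - 1) ^ 4 = 0)
    (hD3 : ∀ c, (τ c - 1) ^ 3 = 0 → c = 1) (hnil : Group.IsNilpotent Γ) :
    (⊤ : Subgroup Γ).lowerCentralSeries 2 = ⊥ := by
  classical
  have hex := Subgroup.nilpotent_iff_lowerCentralSeries.1 hnil
  by_contra hne
  have hlt : 2 < Nat.find hex := by
    by_contra hle
    push Not at hle
    exact hne (eq_bot_iff.2 ((Subgroup.lowerCentralSeries_antitone ⊤ hle).trans
      (Nat.find_spec hex).le))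
  obtain ⟨m, hm⟩ : ∃ m, Nat.find hex = m + 1 := ⟨Nat.find hex - 1, by omega⟩
  have hm2 : 2 ≤ m := by omega
  have hmin := Nat.find_min hex (show m < Nat.find hex by omega)
  have hbot : (⊤ : Subgroup Γ).lowerCentralSeries (m + 1) = ⊥ := hm ▸ Nat.find_spec hex
  apply hmin
  rw [eq_bot_iff]
  intro z hz
  rw [Subgroup.mem_bot]
  apply hD3
  have hcomm' : ∀ w : Γ, z * w = w * z := by
    intro w
    have h1 : ⁅z, w⁆ ∈ (⊤ : Subgroup Γ).lowerCentralSeries (m + 1) := by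
      rw [Subgroup.lowerCentralSeries_succ]
      exact Subgroup.commutator_mem_commutator hz trivial
    rw [hbot, Subgroup.mem_bot] at h1
    exact commutatorElement_eq_one_iff_mul_comm.1 h1
  have hcomm : ∀ w : Γ, τ z * τ w = τ w * τ z := by
    intro w; rw [← map_mul, ← map_mul, hcomm']
  have h2 : ∀ w, (τ z - 1) ^ 2 * (τ w - 1) ^ 2 = 0 := fun w => comm_pair τ h5 h4 z w (hcomm w)
  have hc2 : ∀ w, Commute ((τ z - 1) ^ 2) (τ w) := by
    intro w
    have : Commute (τ z - 1) (τ w) := by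
      rw [Commute, SemiconjBy, sub_mul, mul_sub, hcomm, one_mul, mul_one]
    exact this.pow_left 2
  have h3 : ∀ l : List Γ, l.length = 3 → (τ z - 1) ^ 2 * dp τ l = 0 :=
    three τ h5 _ (fun w => (hc2 w).eq) h2
  have h4' : ∀ x ∈ D τ 3, (τ z - 1) ^ 2 * x = 0 := by
    intro x hx
    refine AddSubgroup.closure_induction (p := fun x _ => (τ z - 1) ^ 2 * x = 0) ?_ ?_ ?_ ?_ hx
    · rintro x ⟨k, l, hl, rfl⟩
      rw [← mul_assoc, (hc2 k).eq, mul_assoc, h3 l hl, mul_zero]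
    · simp
    · intro a b _ _ ha hb; rw [mul_add, ha, hb, add_zero]
    · intro a _ ha; rw [mul_neg, ha, neg_zero]
  have := h4' _ (D_anti τ (by omega) (lcs_mem_D τ m z hz))
  rw [pow_succ]; exact this

/-- The final chain. -/
theorem chain2 (σ : Γ →* B) (h5 : (5 : B) = 0) (h4 : ∀ g, (σ g - 1) ^ 4 = 0)
    (hsp : ∀ a : B, (∀ g, a * σ g * a = 0) → a = 0)
    (hD3 : ∀ c, (σ c - 1) ^ 3 = 0 → σ c = 1)
    (hfin : ∀ g h : Γ, (σ '' (Subgroup.closure {g, h} : Set Γ)).Finite) (g : Γ) : σ g = 1 := by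
  apply eq_one_of_comm σ h5 h4 hsp hD3
  intro h
  let U : Γ →* Bˣ := σ.toHomUnits
  have hU : ∀ x, ((U x : Bˣ) : B) = σ x := fun x => rfl
  let Q : Subgroup Bˣ := (Subgroup.closure ({g, h} : Set Γ)).map U
  let τ : Q →* B := (Units.coeHom B).comp Q.subtype
  have hτ : ∀ q : Q, τ q = ((q : Bˣ) : B) := fun q => rfl
  have hlift : ∀ q : Q, ∃ γ : Γ, τ q = σ γ := by
    rintro ⟨_, γ, _, rfl⟩
    exact ⟨γ, rfl⟩
  have h4τ : ∀ q, (τ q - 1) ^ 4 = 0 := by
    intro q
    obtain ⟨γ, hγ⟩ := hlift q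
    rw [hγ]; exact h4 γ
  have hD3τ : ∀ q : Q, (τ q - 1) ^ 3 = 0 → q = 1 := by
    intro q hq
    obtain ⟨γ, hγ⟩ := hlift q
    rw [hγ] at hq
    have h1 := hD3 γ hq
    apply Subtype.ext
    apply Units.ext
    rw [← hτ, hγ, h1]; rfl
  have hfinQ : Finite Q := by
    have h1 : ((Q : Set Bˣ)).Finite := by
      have h2 : ((fun u : Bˣ => (u : B)) '' (Q : Set Bˣ)).Finite := by
        refine (hfin g h).subset ?_
        rintro _ ⟨_, ⟨γ, hγ, rfl⟩, rfl⟩
        exact ⟨γ, hγ, rfl⟩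
      exact h2.of_finite_image (fun a _ b _ hab => Units.ext hab)
    exact h1
  have hpQ : IsPGroup 5 Q := by
    intro q
    refine ⟨1, ?_⟩
    rw [pow_one]
    apply Subtype.ext
    apply Units.ext
    have h1 : (τ q) ^ 5 = 1 := by
      have h2 : (τ q) ^ 5 - 1 = (τ q - 1) ^ 4 * (τ q - 1)
          + 5 * ((τ q) ^ 4 - 2 * (τ q) ^ 3 + 2 * (τ q) ^ 2 - τ q) := by
        generalize τ q = t
        noncomm_ring
      rw [h4τ, h5, zero_mul, zero_mul, add_zero] at h2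
      exact sub_eq_zero.1 h2
    have h3 : (((q ^ 5 : Q) : Bˣ) : B) = (τ q) ^ 5 := by
      rw [hτ]; simp
    rw [h3, h1]; rfl
  haveI : Fact (Nat.Prime 5) := ⟨by norm_num⟩
  have hnil : Group.IsNilpotent Q := hpQ.isNilpotent
  have hcl := class_two τ h5 h4τ hD3τ hnil
  let g' : Q := ⟨U g, g, Subgroup.subset_closure (by simp), rfl⟩
  let h' : Q := ⟨U h, h, Subgroup.subset_closure (by simp), rfl⟩
  have h1 : ⁅⁅h', g'⁆, g'⁆ = 1 := by
    have : ⁅⁅h', g'⁆, g'⁆ ∈ (⊤ : Subgroup Q).lowerCentralSeries 2 := by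
      rw [Subgroup.lowerCentralSeries_succ]
      refine Subgroup.commutator_mem_commutator ?_ trivial
      rw [Subgroup.lowerCentralSeries_succ]
      exact Subgroup.commutator_mem_commutator (by rw [Subgroup.lowerCentralSeries_zero]; trivial) trivial
    rwa [hcl, Subgroup.mem_bot] at this
  have h2 : ⁅h', g'⁆ * g' = g' * ⁅h', g'⁆ := commutatorElement_eq_one_iff_mul_comm.1 h1
  have h3 : σ ⁅h, g⁆ * σ g = σ g * σ ⁅h, g⁆ := by
    have h4 := congrArg τ h2
    rw [map_mul, map_mul] at h4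
    have h5 : τ ⁅h', g'⁆ = σ ⁅h, g⁆ := by
      rw [hτ, ← hU, map_commutatorElement]; rfl
    have h6 : τ g' = σ g := rfl
    rwa [h5, h6] at h4
  have e : h * g * h⁻¹ = ⁅h, g⁆ * g := by rw [commutatorElement_def]; group
  rw [e, map_mul]
  calc σ g * (σ ⁅h, g⁆ * σ g) = σ g * (σ g * σ ⁅h, g⁆) := by rw [h3]
    _ = σ g * σ g * σ ⁅h, g⁆ := by rw [mul_assoc]
    _ = σ ⁅h, g⁆ * σ g * σ g := by
      rw [mul_assoc, ← h3, ← mul_assoc, ← h3]

end Pool.Agent.Work.MP_d7201b_al.LN
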