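import Mathlib
import Pool.Agent.Work.MP_d7201b_al_LN31.Basic
import Pool.Agent.Work.MP_d7201b_al_LN31.Cubic
import Pool.Agent.Work.MP_d7201b_al_LN.Chain
import Pool.Agent.Work.MP_d7201b_al_LN.Chain2

/-!
# Local nilpotence: assembly

`LN_of`: from the statement on cubic elements (`D3Stmt`) and the two-generator statement
(`TwoStmt`) every representation `ρ : Γ →* A` of a finitely generated group with `5 = 0` and
`(ρ g - 1) ^ 4 = 0` for all `g` has nilpotent augmentation ideal.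
-/

set_option autoImplicit false

namespace Pool.Agent.Work.MP_d7201b_al.LN

universe u v

open scoped commutatorElement

/-- cubic elements are trivial in the prime-like situation -/
def D3Stmt : Prop := ∀ (Γ : Type u) [Group Γ] [Group.FG Γ] (B : Type u) [Ring B] (σ : Γ →* B),
  (5 : B) = 0 → (∀ g, (σ g - 1) ^ 4 = 0) → AddSubgroup.closure (Set.range σ) = ⊤ → ¬ Nil σ →
  PrimeLike σ → ∀ c, (σ c - 1) ^ 3 = 0 → σ c = 1

/-- two-generator subgroups have augmentation ideal of index at most twelve -/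
def TwoStmt : Prop := ∀ (Γ : Type u) [Group Γ] (B : Type u) [Ring B] (σ : Γ →* B),
  (5 : B) = 0 → (∀ g, (σ g - 1) ^ 4 = 0) → ∀ g h : Γ, ∀ l : List Γ,
  (∀ x ∈ l, x ∈ Subgroup.closure {g, h}) → l.length = 12 → dp σ l = 0

variable {Γ : Type u} [Group Γ] {A : Type v} [Ring A]

theorem PrimeLike.semiprime (ρ : Γ →* A) (hspan : AddSubgroup.closure (Set.range ρ) = ⊤)
    (hn : ¬ Nil ρ) (hρ : PrimeLike ρ) (a : A) (ha : ∀ g, a * ρ g * a = 0) : a = 0 := by
  by_contra hne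
  obtain ⟨n, hn'⟩ := hρ a hne
  have h1 : ∀ x ∈ Idl ρ a, ∀ g, a * ρ g * x = 0 := by
    intro x hx
    refine AddSubgroup.closure_induction (p := fun x _ => ∀ g, a * ρ g * x = 0) ?_ ?_ ?_ ?_ hx
    · rintro x ⟨g, h, rfl⟩ k
      calc a * ρ k * (ρ g * a * ρ h) = (a * ρ (k * g) * a) * ρ h := by rw [map_mul]; simp only [mul_assoc]
        _ = 0 := by rw [ha, zero_mul]
    · simp
    · intro x y _ _ hx hy g; rw [mul_add, hx, hy, add_zero]
    · intro x _ hx g; rw [mul_neg, hx, neg_zero]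
  have h2 : ∀ x ∈ Idl ρ a, ∀ y ∈ Idl ρ a, x * y = 0 := by
    intro x hx y hy
    refine AddSubgroup.closure_induction (p := fun x _ => x * y = 0) ?_ ?_ ?_ ?_ hx
    · rintro x ⟨g, h, rfl⟩
      rw [mul_assoc (ρ g), mul_assoc (ρ g), h1 y hy, mul_zero]
    · simp
    · intro x z _ _ hx hz; rw [add_mul, hx, hz, add_zero]
    · intro x _ hx; rw [neg_mul, hx, neg_zero]
  refine hn ⟨n + n, fun l hl => ?_⟩
  rw [← List.take_append_drop n l, dp_append]
  exact h2 _ (hn' _ (by simp [hl])) _ (hn' _ (by simp [hl]))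

/-- **LN** from its two ingredients. -/
theorem LN_of (hD3 : D3Stmt.{u}) (hTwo : TwoStmt.{u}) [Group.FG Γ] (ρ : Γ →* A)
    (h5 : (5 : A) = 0) (h4 : ∀ g, (ρ g - 1) ^ 4 = 0) : Nil ρ := by
  by_contra hn
  obtain ⟨B, _, σ, hlift, hspan, hnσ, hprime⟩ := exists_primeLike ρ hn
  have h5' : (5 : B) = 0 := by
    have := hlift 5 (by rw [map_ofNat]; exact h5)
    rwa [map_ofNat] at this
  have h4' : ∀ g, (σ g - 1) ^ 4 = 0 := by
    intro g
    have := hlift ((MonoidAlgebra.of ℤ Γ g - 1) ^ 4) (by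
      rw [map_pow, map_sub, map_one, MonoidAlgebra.lift_of]; exact h4 g)
    rwa [map_pow, map_sub, map_one, MonoidAlgebra.lift_of] at this
  have h1 : ∀ g, σ g = 1 :=
    chain σ h5' h4' (PrimeLike.semiprime σ hspan hnσ hprime)
      (hD3 Γ B σ h5' h4' hspan hnσ hprime) (hTwo Γ B σ h5' h4')
  refine hnσ ⟨1, fun l hl => ?_⟩
  obtain ⟨g, rfl⟩ := List.length_eq_one_iff.1 hl
  simp [h1]

/-- two-generator subgroups have finite image -/
def FinStmt : Prop := ∀ (Γ : Type u) [Group Γ] (B : Type u) [Ring B] (σ : Γ →* B),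
  (5 : B) = 0 → (∀ g, (σ g - 1) ^ 4 = 0) → ∀ g h : Γ,
  (σ '' (Subgroup.closure {g, h} : Set Γ)).Finite

/-- **LN** from the finiteness of two-generator subgroups. -/
theorem LN_of_fin (hF : FinStmt.{u}) [Group.FG Γ] (ρ : Γ →* A)
    (h5 : (5 : A) = 0) (h4 : ∀ g, (ρ g - 1) ^ 4 = 0) : Nil ρ := by
  by_contra hn
  obtain ⟨B, _, σ, hlift, hspan, hnσ, hprime⟩ := exists_primeLike ρ hn
  have h5' : (5 : B) = 0 := by
    have := hlift 5 (by rw [map_ofNat]; exact h5)
    rwa [map_ofNat] at this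
  have h4' : ∀ g, (σ g - 1) ^ 4 = 0 := by
    intro g
    have := hlift ((MonoidAlgebra.of ℤ Γ g - 1) ^ 4) (by
      rw [map_pow, map_sub, map_one, MonoidAlgebra.lift_of]; exact h4 g)
    rwa [map_pow, map_sub, map_one, MonoidAlgebra.lift_of] at this
  have h1 : ∀ g, σ g = 1 :=
    chain2 σ h5' h4' (PrimeLike.semiprime σ hspan hnσ hprime)
      (fun c hc => D3 h5' hprime hnσ h4' hc) (hF Γ B σ h5' h4')
  refine hnσ ⟨1, fun l hl => ?_⟩
  obtain ⟨g, rfl⟩ := List.length_eq_one_iff.1 hl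
  simp [h1]

end Pool.Agent.Work.MP_d7201b_al.LN
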