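import Mathlib

/-!
# Reduction to a prime-like quotient

`Γ` is a finitely generated group, `ρ : Γ →* A` a monoid homomorphism to a ring.  If no power of the
augmentation ideal vanishes in `A`, then there is a quotient of (a subring of) `A` in which still
no power vanishes but in which every nonzero two-sided ideal contains a power.
-/

set_option autoImplicit false

namespace Pool.Agent.Work.MP_d7201b_al_LN

open TwoSidedIdeal

universe u v

section Basic

variable {Γ : Type v} [Group Γ] {A : Type u} [Ring A]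

/-- the product of the `ρ g - 1` over a list -/
def dprod (ρ : Γ →* A) (l : List Γ) : A := (l.map fun g => ρ g - 1).prod

@[simp] lemma dprod_nil (ρ : Γ →* A) : dprod ρ [] = 1 := rfl

@[simp] lemma dprod_cons (ρ : Γ →* A) (g : Γ) (l : List Γ) :
    dprod ρ (g :: l) = (ρ g - 1) * dprod ρ l := by
  simp [dprod]

lemma dprod_append (ρ : Γ →* A) (l m : List Γ) :
    dprod ρ (l ++ m) = dprod ρ l * dprod ρ m := by
  simp [dprod]

lemma dprod_map {B : Type*} [Ring B] (ρ : Γ →* A) (f : A →+* B) (l : List Γ) :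
    dprod ((f : A →* B).comp ρ) l = f (dprod ρ l) := by
  induction l with
  | nil => simp
  | cons g l ih => simp [ih]

/-- every product of `n` factors `ρ g - 1` lies in `I` -/
def Kills (ρ : Γ →* A) (I : TwoSidedIdeal A) (n : ℕ) : Prop :=
  ∀ l : List Γ, l.length = n → dprod ρ l ∈ I

/-- products of `n` factors `ρ s - 1`, `s ∈ S` -/
def F (ρ : Γ →* A) (S : Set Γ) : ℕ → Set A
  | 0 => {1}
  | n + 1 => Set.image2 (fun s x => (ρ s - 1) * x) S (F ρ S n)

lemma F_finite (ρ : Γ →* A) {S : Set Γ} (hS : S.Finite) (n : ℕ) : (F ρ S n).Finite := by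
  induction n with
  | zero => exact Set.finite_singleton _
  | succ n ih => exact Set.Finite.image2 _ hS ih

lemma exists_list_of_mem_F (ρ : Γ →* A) (S : Set Γ) (n : ℕ) {x : A} (hx : x ∈ F ρ S n) :
    ∃ l : List Γ, l.length = n ∧ x = dprod ρ l := by
  induction n generalizing x with
  | zero => exact ⟨[], rfl, by simpa [F] using hx⟩
  | succ n ih =>
    obtain ⟨s, -, y, hy, rfl⟩ := hx
    obtain ⟨l, hl, rfl⟩ := ih hy
    exact ⟨s :: l, by simp [hl], by simp⟩

/-- left `Γ`-multiples of `F n` -/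
def G (ρ : Γ →* A) (S : Set Γ) (n : ℕ) : AddSubgroup A :=
  AddSubgroup.closure {x | ∃ h : Γ, ∃ y ∈ F ρ S n, x = ρ h * y}

lemma mul_mem_G (ρ : Γ →* A) (S : Set Γ) (n : ℕ) (g : Γ) {x : A} (hx : x ∈ G ρ S n) :
    ρ g * x ∈ G ρ S n := by
  induction hx using AddSubgroup.closure_induction with
  | mem x hx =>
    obtain ⟨h, y, hy, rfl⟩ := hx
    exact AddSubgroup.subset_closure ⟨g * h, y, hy, by simp [mul_assoc]⟩
  | zero => simp
  | add x y _ _ hx hy => rw [mul_add]; exact add_mem hx hy
  | neg x _ hx => rw [mul_neg]; exact neg_mem hx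

lemma sub_one_mul_mem_G (ρ : Γ →* A) {S : Set Γ} (hS : Subgroup.closure S = ⊤) (n : ℕ)
    (g : Γ) {y : A} (hy : y ∈ F ρ S n) : (ρ g - 1) * y ∈ G ρ S (n + 1) := by
  have hg : g ∈ Subgroup.closure S := by rw [hS]; trivial
  induction hg using Subgroup.closure_induction with
  | mem s hs =>
    exact AddSubgroup.subset_closure ⟨1, (ρ s - 1) * y, ⟨s, hs, y, hy, rfl⟩, by simp⟩
  | one => simp
  | mul g h _ _ hg hh =>
    have : (ρ (g * h) - 1) * y = ρ g * ((ρ h - 1) * y) + (ρ g - 1) * y := by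
      rw [map_mul]; noncomm_ring
    rw [this]
    exact add_mem (mul_mem_G ρ S _ g hh) hg
  | inv g _ hg =>
    have h1 : ρ g⁻¹ * ρ g = 1 := by rw [← map_mul]; simp
    have : (ρ g⁻¹ - 1) * y = - (ρ g⁻¹ * ((ρ g - 1) * y)) := by
      calc (ρ g⁻¹ - 1) * y = ρ g⁻¹ * y - (ρ g⁻¹ * ρ g) * y := by rw [h1]; noncomm_ring
        _ = _ := by noncomm_ring
    rw [this]
    exact neg_mem (mul_mem_G ρ S _ g⁻¹ hg)

lemma dprod_mem_G (ρ : Γ →* A) {S : Set Γ} (hS : Subgroup.closure S = ⊤) (l : List Γ) :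
    dprod ρ l ∈ G ρ S l.length := by
  induction l with
  | nil => exact AddSubgroup.subset_closure ⟨1, 1, by simp [F], by simp⟩
  | cons g l ih =>
    rw [dprod_cons, List.length_cons]
    generalize dprod ρ l = z at ih
    induction ih using AddSubgroup.closure_induction with
    | mem x hx =>
      obtain ⟨h, y, hy, rfl⟩ := hx
      have : (ρ g - 1) * (ρ h * y) = (ρ (g * h) - 1) * y - (ρ h - 1) * y := by
        rw [map_mul]; noncomm_ring
      rw [this]
      exact sub_mem (sub_one_mul_mem_G ρ hS _ _ hy) (sub_one_mul_mem_G ρ hS _ _ hy)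
    | zero => simp
    | add x y _ _ hx hy => rw [mul_add]; exact add_mem hx hy
    | neg x _ hx => rw [mul_neg]; exact neg_mem hx

lemma kills_iff (ρ : Γ →* A) {S : Set Γ} (hS : Subgroup.closure S = ⊤) (I : TwoSidedIdeal A)
    (n : ℕ) : Kills ρ I n ↔ ∀ x ∈ F ρ S n, x ∈ I := by
  constructor
  · intro h x hx
    obtain ⟨l, hl, rfl⟩ := exists_list_of_mem_F ρ S n hx
    exact h l hl
  · intro h l hl
    have := dprod_mem_G ρ hS l
    rw [hl] at this
    refine AddSubgroup.closure_induction (p := fun x _ => x ∈ I) ?_ I.zero_mem ?_ ?_ this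
    · rintro x ⟨g, y, hy, rfl⟩
      exact I.mul_mem_left _ _ (h y hy)
    · exact fun x y _ _ hx hy => I.add_mem hx hy
    · exact fun x _ hx => I.neg_mem hx

lemma Kills.mono {ρ : Γ →* A} {I : TwoSidedIdeal A} {n m : ℕ} (h : Kills ρ I n) (hnm : n ≤ m) :
    Kills ρ I m := by
  intro l hl
  rw [← List.take_append_drop n l, dprod_append]
  exact I.mul_mem_right _ _ (h _ (by simp [hl, hnm]))

/-- The union of a nonempty chain of two-sided ideals. -/
def chainUnion (c : Set (TwoSidedIdeal A)) (hc : IsChain (· ≤ ·) c) {y : TwoSidedIdeal A}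
    (hy : y ∈ c) : TwoSidedIdeal A :=
  .mk' {x | ∃ I ∈ c, x ∈ I} ⟨y, hy, y.zero_mem⟩
    (by
      rintro a b ⟨I, hI, ha⟩ ⟨J, hJ, hb⟩
      rcases hc.total hI hJ with h | h
      · exact ⟨J, hJ, J.add_mem (h ha) hb⟩
      · exact ⟨I, hI, I.add_mem ha (h hb)⟩)
    (by rintro a ⟨I, hI, ha⟩; exact ⟨I, hI, I.neg_mem ha⟩)
    (by rintro a b ⟨I, hI, hb⟩; exact ⟨I, hI, I.mul_mem_left _ _ hb⟩)
    (by rintro a b ⟨I, hI, ha⟩; exact ⟨I, hI, I.mul_mem_right _ _ ha⟩)

lemma mem_chainUnion (c : Set (TwoSidedIdeal A)) (hc : IsChain (· ≤ ·) c) {y : TwoSidedIdeal A}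
    (hy : y ∈ c) (x : A) : x ∈ chainUnion c hc hy ↔ ∃ I ∈ c, x ∈ I := by
  simp [chainUnion]

lemma exists_of_finite (c : Set (TwoSidedIdeal A)) (hc : IsChain (· ≤ ·) c) {y : TwoSidedIdeal A}
    (hy : y ∈ c) {T : Set A} (hT : T.Finite) (h : ∀ x ∈ T, ∃ I ∈ c, x ∈ I) :
    ∃ I ∈ c, ∀ x ∈ T, x ∈ I := by
  induction T, hT using Set.Finite.induction_on with
  | empty => exact ⟨y, hy, by simp⟩
  | @insert a T _ _ ih =>
    obtain ⟨I, hI, hIT⟩ := ih (fun x hx => h x (Set.mem_insert_of_mem _ hx))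
    obtain ⟨J, hJ, hJa⟩ := h a (Set.mem_insert _ _)
    rcases hc.total hI hJ with hle | hle
    · refine ⟨J, hJ, ?_⟩
      rintro x (rfl | hx)
      · exact hJa
      · exact hle (hIT x hx)
    · refine ⟨I, hI, ?_⟩
      rintro x (rfl | hx)
      · exact hle hJa
      · exact hIT x hx

/-- The maximal ideal containing no power of the augmentation ideal. -/
theorem exists_maximal (ρ : Γ →* A) (hΓ : Group.FG Γ) (h : ∀ n, ¬ Kills ρ ⊥ n) :
    ∃ P : TwoSidedIdeal A, (∀ n, ¬ Kills ρ P n) ∧
      ∀ J : TwoSidedIdeal A, P < J → ∃ n, Kills ρ J n := by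
  obtain ⟨S, hS, hfin⟩ := Group.fg_iff.1 hΓ
  obtain ⟨P, -, hP⟩ := zorn_le_nonempty₀ {I : TwoSidedIdeal A | ∀ n, ¬ Kills ρ I n} (by
    intro c hcs hc y hy
    refine ⟨chainUnion c hc hy, ?_, ?_⟩
    · intro n hn
      rw [kills_iff ρ hS] at hn
      obtain ⟨I, hI, hIn⟩ := exists_of_finite c hc hy (F_finite ρ hfin n)
        (fun x hx => (mem_chainUnion c hc hy x).1 (hn x hx))
      exact hcs hI n ((kills_iff ρ hS I n).2 hIn)
    · intro z hz x hx
      exact (mem_chainUnion c hc hy x).2 ⟨z, hz, hx⟩) ⊥ h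
  refine ⟨P, hP.prop, ?_⟩
  intro J hJ
  by_contra hcon
  push Not at hcon
  exact hJ.not_ge (hP.le_of_ge hcon hJ.le)

end Basic

/-- `ρ : Γ →* A` is prime-like: `A` is additively spanned by `ρ Γ`, has `5 = 0`, every element
satisfies `(ρ g - 1) ^ 4 = 0`, no power of the augmentation ideal vanishes, but every nonzero
two-sided ideal contains a power of the augmentation ideal. -/
structure PrimeLike {Γ : Type v} [Group Γ] {A : Type u} [Ring A] (ρ : Γ →* A) : Prop where
  fg : Group.FG Γ
  five : (5 : A) = 0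
  pow4 : ∀ g, (ρ g - 1) ^ 4 = 0
  span : ∀ a : A, a ∈ AddSubgroup.closure (Set.range ρ)
  notnil : ∀ n, ∃ l : List Γ, l.length = n ∧ dprod ρ l ≠ 0
  prime : ∀ a : A, a ≠ 0 → ∃ n, ∀ l : List Γ, l.length = n → dprod ρ l ∈ TwoSidedIdeal.span {a}

/-- Reduction, when `A` is spanned by the group. -/
theorem exists_primeLike_of_span {Γ : Type v} [Group Γ] {A : Type u} [Ring A] (ρ : Γ →* A)
    (fg : Group.FG Γ) (five : (5 : A) = 0) (pow4 : ∀ g, (ρ g - 1) ^ 4 = 0)
    (span : ∀ a : A, a ∈ AddSubgroup.closure (Set.range ρ))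
    (notnil : ∀ n, ∃ l : List Γ, l.length = n ∧ dprod ρ l ≠ 0) :
    ∃ (A' : Type u) (_ : Ring A') (f : A →+* A'), Function.Surjective f ∧
      PrimeLike ((f : A →* A').comp ρ) := by
  obtain ⟨P, hP, hmax⟩ := exists_maximal ρ fg (by
    intro n hn
    obtain ⟨l, hl, hne⟩ := notnil n
    exact hne (by simpa using hn l hl))
  have hker : ∀ x : A, P.ringCon.mk' x = 0 ↔ x ∈ P := by
    intro x
    rw [← TwoSidedIdeal.mem_ker, TwoSidedIdeal.ker_ringCon_mk']
  have hsurj : Function.Surjective P.ringCon.mk' := P.ringCon.mk'_surjective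
  refine ⟨P.ringCon.Quotient, inferInstance, P.ringCon.mk', hsurj, ?_⟩
  refine ⟨fg, ?_, ?_, ?_, ?_, ?_⟩
  · rw [← map_ofNat P.ringCon.mk' 5]
    have := congrArg P.ringCon.mk' five
    rw [map_zero] at this
    exact this
  · intro g
    have := congrArg P.ringCon.mk' (pow4 g)
    simpa using this
  · intro a
    obtain ⟨b, rfl⟩ := hsurj a
    have hb := span b
    refine AddSubgroup.closure_induction (p := fun x _ => P.ringCon.mk' x ∈
      AddSubgroup.closure (Set.range ((P.ringCon.mk' : A →* P.ringCon.Quotient).comp ρ))) ?_ ?_ ?_ ?_ hb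
    · rintro x ⟨g, rfl⟩
      exact AddSubgroup.subset_closure ⟨g, rfl⟩
    · simp
    · intro x y _ _ hx hy
      rw [map_add]; exact add_mem hx hy
    · intro x _ hx
      rw [map_neg]; exact neg_mem hx
  · intro n
    have := hP n
    unfold Kills at this
    push Not at this
    obtain ⟨l, hl, hne⟩ := this
    refine ⟨l, hl, ?_⟩
    rw [dprod_map, Ne, hker]
    exact hne
  · intro a ha
    obtain ⟨b, rfl⟩ := hsurj a
    have hb : b ∉ P := fun h => ha ((hker b).2 h)
    have hle : P < TwoSidedIdeal.comap P.ringCon.mk' (TwoSidedIdeal.span {P.ringCon.mk' b}) := by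
      refine lt_of_le_of_ne ?_ ?_
      · intro x hx
        rw [TwoSidedIdeal.mem_comap, (hker x).2 hx]
        exact TwoSidedIdeal.zero_mem _
      · intro heq
        apply hb
        rw [heq, TwoSidedIdeal.mem_comap]
        exact TwoSidedIdeal.subset_span rfl
    obtain ⟨n, hn⟩ := hmax _ hle
    refine ⟨n, fun l hl => ?_⟩
    have := hn l hl
    rw [TwoSidedIdeal.mem_comap] at this
    rw [dprod_map]
    exact this

/-- Reduction in general: pass to the subring generated by the group first. -/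
theorem exists_primeLike {Γ : Type v} [Group Γ] {A : Type u} [Ring A] (ρ : Γ →* A)
    (fg : Group.FG Γ) (five : (5 : A) = 0) (pow4 : ∀ g, (ρ g - 1) ^ 4 = 0)
    (notnil : ∀ n, ∃ l : List Γ, l.length = n ∧ dprod ρ l ≠ 0) :
    ∃ (A' : Type u) (_ : Ring A') (ρ' : Γ →* A'), PrimeLike ρ' := by
  let R : Subring A := Subring.closure (Set.range ρ)
  let ρ₁ : Γ →* R := ρ.codRestrict R.toSubmonoid (fun g => Subring.subset_closure ⟨g, rfl⟩)
  have hval : ∀ g, ((ρ₁ g : R) : A) = ρ g := fun g => rfl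
  have hinj : Function.Injective R.subtype := Subtype.val_injective
  have hcomp : ((R.subtype : R →* A).comp ρ₁) = ρ := by ext g; rfl
  obtain ⟨A', i, f, -, h⟩ := exists_primeLike_of_span ρ₁ fg (by
      apply hinj
      rw [map_ofNat, map_zero]
      exact five) (by
      intro g; apply hinj; simpa [hval] using pow4 g) (by
      rintro ⟨a, ha⟩
      have key : ∀ x ∈ R, x ∈ AddSubgroup.closure (Set.range ρ) := by
        intro x hx
        refine Subring.closure_induction (p := fun x _ => x ∈ AddSubgroup.closure (Set.range ρ))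
          ?_ ?_ ?_ ?_ ?_ ?_ hx
        · intro x hx; exact AddSubgroup.subset_closure hx
        · exact zero_mem _
        · exact AddSubgroup.subset_closure ⟨1, by simp⟩
        · intro x y _ _ hx hy; exact add_mem hx hy
        · intro x _ hx; exact neg_mem hx
        · intro x y _ _ hx hy
          refine AddSubgroup.closure_induction
            (p := fun x _ => x * y ∈ AddSubgroup.closure (Set.range ρ)) ?_ ?_ ?_ ?_ hx
          · rintro x ⟨g, rfl⟩
            refine AddSubgroup.closure_induction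
              (p := fun y _ => ρ g * y ∈ AddSubgroup.closure (Set.range ρ)) ?_ ?_ ?_ ?_ hy
            · rintro y ⟨h, rfl⟩
              exact AddSubgroup.subset_closure ⟨g * h, by simp⟩
            · simp
            · intro a b _ _ ha hb; rw [mul_add]; exact add_mem ha hb
            · intro a _ ha; rw [mul_neg]; exact neg_mem ha
          · simp
          · intro a b _ _ ha hb; rw [add_mul]; exact add_mem ha hb
          · intro a _ ha; rw [neg_mul]; exact neg_mem ha
      have h1 := key a ha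
      have h2 : ∀ x ∈ AddSubgroup.closure (Set.range ρ),
          ∃ y : R, (y : A) = x ∧ y ∈ AddSubgroup.closure (Set.range ρ₁) := by
        intro x hx
        refine AddSubgroup.closure_induction (p := fun x _ => ∃ y : R, (y : A) = x ∧
          y ∈ AddSubgroup.closure (Set.range ρ₁)) ?_ ?_ ?_ ?_ hx
        · rintro x ⟨g, rfl⟩
          exact ⟨ρ₁ g, rfl, AddSubgroup.subset_closure ⟨g, rfl⟩⟩
        · exact ⟨0, rfl, zero_mem _⟩
        · rintro x y _ _ ⟨x', rfl, hx'⟩ ⟨y', rfl, hy'⟩
          exact ⟨x' + y', rfl, add_mem hx' hy'⟩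
        · rintro x _ ⟨x', rfl, hx'⟩
          exact ⟨-x', rfl, neg_mem hx'⟩
      obtain ⟨y, hy, hy'⟩ := h2 a h1
      have : y = ⟨a, ha⟩ := Subtype.ext hy
      rwa [← this]) (by
      intro n
      obtain ⟨l, hl, hne⟩ := notnil n
      refine ⟨l, hl, fun h0 => hne ?_⟩
      have := dprod_map ρ₁ R.subtype l
      rw [hcomp, h0] at this
      simpa using this)
  exact ⟨A', i, _, h⟩

section Consequences

variable {Γ : Type v} [Group Γ] {A : Type u} [Ring A] {ρ : Γ →* A}

/-- elements killed by the group on both sides vanish -/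
theorem PrimeLike.semiprime (hρ : PrimeLike ρ) (a : A) (ha : ∀ g, a * ρ g * a = 0) : a = 0 := by
  by_contra hne
  obtain ⟨n, hn⟩ := hρ.prime a hne
  have h0 : ∀ x : A, a * x * a = 0 := by
    intro x
    refine AddSubgroup.closure_induction (p := fun x _ => a * x * a = 0) ?_ ?_ ?_ ?_ (hρ.span x)
    · rintro x ⟨g, rfl⟩; exact ha g
    · simp
    · intro x y _ _ hx hy; rw [mul_add, add_mul, hx, hy, add_zero]
    · intro x _ hx; rw [mul_neg, neg_mul, hx, neg_zero]
  have h1 : ∀ x ∈ TwoSidedIdeal.span {a}, ∀ y : A, a * y * x = 0 := by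
    intro x hx
    induction hx using TwoSidedIdeal.span_induction with
    | mem x hx => intro y; rw [Set.mem_singleton_iff.1 hx]; exact h0 y
    | zero => simp
    | add x y _ _ hx hy => intro z; rw [mul_add, hx, hy, add_zero]
    | neg x _ hx => intro z; rw [mul_neg, hx, neg_zero]
    | left_absorb b x _ hx => intro z; rw [← mul_assoc, mul_assoc a z b]; exact hx _
    | right_absorb b x _ hx => intro z; rw [← mul_assoc, hx, zero_mul]
  have h2 : ∀ x ∈ TwoSidedIdeal.span {a}, ∀ y ∈ TwoSidedIdeal.span {a}, x * y = 0 := by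
    intro x hx
    induction hx using TwoSidedIdeal.span_induction with
    | mem x hx => 
      intro y hy
      have := h1 y hy 1
      rw [Set.mem_singleton_iff.1 hx]; simpa using this
    | zero => simp
    | add x y _ _ hx hy => intro z hz; rw [add_mul, hx z hz, hy z hz, add_zero]
    | neg x _ hx => intro z hz; rw [neg_mul, hx z hz, neg_zero]
    | left_absorb b x _ hx => intro z hz; rw [mul_assoc, hx z hz, mul_zero]
    | right_absorb b x _ hx =>
      intro z hz
      rw [mul_assoc]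
      exact hx _ (TwoSidedIdeal.mul_mem_left _ _ _ hz)
  obtain ⟨l, hl, hne'⟩ := hρ.notnil (n + n)
  apply hne'
  rw [← List.take_append_drop n l, dprod_append]
  exact h2 _ (hn _ (by simp [hl])) _ (hn _ (by simp [hl]))

end Consequences

end Pool.Agent.Work.MP_d7201b_al_LN
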