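import Mathlib
import Pool.Agent.Work.MP_d7201b_al_LN31.Basic
import Pool.Agent.Work.MP_d7201b_al_LN.Prime

/-!
# From words in the logarithms to the augmentation ideal of a two-generator subgroup
-/

set_option autoImplicit false

namespace Pool.Agent.Work.MP_d7201b_al.LN

universe u v

variable {B : Type v} [Ring B]

/-- the word in `X, Y` -/
def wd (X Y : B) (l : List Bool) : B := (l.map (fun b => if b then X else Y)).prod

lemma wd_append (X Y : B) (l m : List Bool) : wd X Y (l ++ m) = wd X Y l * wd X Y m := by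
  simp [wd]

/-- sums of words of length at least `n` -/
def J (X Y : B) (n : ℕ) : AddSubgroup B :=
  AddSubgroup.closure {x | ∃ l : List Bool, n ≤ l.length ∧ x = wd X Y l}

lemma J_mul (X Y : B) (m n : ℕ) {x y : B} (hx : x ∈ J X Y m) (hy : y ∈ J X Y n) :
    x * y ∈ J X Y (m + n) := by
  refine AddSubgroup.closure_induction (p := fun x _ => x * y ∈ J X Y (m + n)) ?_ ?_ ?_ ?_ hx
  · rintro x ⟨l, hl, rfl⟩
    refine AddSubgroup.closure_induction (p := fun y _ => wd X Y l * y ∈ J X Y (m + n))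
      ?_ ?_ ?_ ?_ hy
    · rintro y ⟨l', hl', rfl⟩
      refine AddSubgroup.subset_closure ⟨l ++ l', ?_, (wd_append X Y l l').symm⟩
      rw [List.length_append]; omega
    · simp
    · intro a b _ _ ha hb; rw [mul_add]; exact add_mem ha hb
    · intro a _ ha; rw [mul_neg]; exact neg_mem ha
  · simp
  · intro a b _ _ ha hb; rw [add_mul]; exact add_mem ha hb
  · intro a _ ha; rw [neg_mul]; exact neg_mem ha

lemma J_mono (X Y : B) {m n : ℕ} (h : m ≤ n) {x : B} (hx : x ∈ J X Y n) : x ∈ J X Y m := by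
  refine AddSubgroup.closure_induction (p := fun x _ => x ∈ J X Y m) ?_ ?_ ?_ ?_ hx
  · rintro x ⟨l, hl, rfl⟩
    exact AddSubgroup.subset_closure ⟨l, h.trans hl, rfl⟩
  · exact zero_mem _
  · intro a b _ _ ha hb; exact add_mem ha hb
  · intro a _ ha; exact neg_mem ha

lemma J_X (X Y : B) : X ∈ J X Y 1 := AddSubgroup.subset_closure ⟨[true], by simp, by simp [wd]⟩

lemma J_Y (X Y : B) : Y ∈ J X Y 1 := AddSubgroup.subset_closure ⟨[false], by simp, by simp [wd]⟩

lemma J_exp (X Y : B) {Z : B} (hZ : Z ∈ J X Y 1) : Z + 3 * Z ^ 2 + Z ^ 3 ∈ J X Y 1 := by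
  have h2 : Z ^ 2 ∈ J X Y 1 := by
    rw [pow_two]; exact J_mono X Y (by norm_num) (J_mul X Y 1 1 hZ hZ)
  have h3 : Z ^ 3 ∈ J X Y 1 := by
    rw [pow_succ]; exact J_mono X Y (by norm_num) (J_mul X Y 1 1 h2 hZ)
  have h32 : 3 * Z ^ 2 ∈ J X Y 1 := by
    have e : 3 * Z ^ 2 = Z ^ 2 + Z ^ 2 + Z ^ 2 := by noncomm_ring
    rw [e]; exact add_mem (add_mem h2 h2) h2
  exact add_mem (add_mem hZ h32) h3

lemma J_eq_zero (X Y : B) (n : ℕ) (hw : ∀ l : List Bool, l.length = n → wd X Y l = 0) {x : B}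
    (hx : x ∈ J X Y n) : x = 0 := by
  refine AddSubgroup.closure_induction (p := fun x _ => x = 0) ?_ rfl ?_ ?_ hx
  · rintro x ⟨l, hl, rfl⟩
    rw [← List.take_append_drop n l, wd_append, hw _ (by simp [hl]), zero_mul]
  · intro a b _ _ ha hb; rw [ha, hb, add_zero]
  · intro a _ ha; rw [ha, neg_zero]

variable {Γ : Type u} [Group Γ]

/-- If `σ g - 1, σ h - 1` are sums of nonempty words in `X, Y` and all words of length `n` in
`X, Y` vanish, then `Δ(⟨g, h⟩) ^ n = 0`. -/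
theorem two_of_words' (σ : Γ →* B) (g h : Γ) (X Y : B) (hg : σ g - 1 ∈ J X Y 1)
    (hh : σ h - 1 ∈ J X Y 1) (n : ℕ) (hw : ∀ l : List Bool, l.length = n → wd X Y l = 0)
    (l : List Γ) (hl : ∀ x ∈ l, x ∈ Subgroup.closure {g, h}) (hn : l.length = n) :
    dp σ l = 0 := by
  set H := Subgroup.closure ({g, h} : Set Γ) with hH
  let τ : H →* B := σ.comp H.subtype
  let g' : H := ⟨g, Subgroup.subset_closure (by simp)⟩
  let h' : H := ⟨h, Subgroup.subset_closure (by simp)⟩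
  have hS : Subgroup.closure ({g', h'} : Set H) = ⊤ := by
    have h1 := Subgroup.closure_closure_coe_preimage (k := ({g, h} : Set Γ))
    convert h1 using 2
    ext x
    simp only [Set.mem_insert_iff, Set.mem_singleton_iff, Set.mem_preimage, g', h', Subtype.ext_iff]
  have hF : ∀ m, ∀ y ∈ MP_d7201b_al_LN.F τ ({g', h'} : Set H) m, y ∈ J X Y m := by
    intro m
    induction m with
    | zero =>
      intro y hy
      rw [Set.mem_singleton_iff.1 hy]
      exact AddSubgroup.subset_closure ⟨[], le_rfl, by simp [wd]⟩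
    | succ m ih =>
      rintro y ⟨s, hs, z, hz, rfl⟩
      rw [add_comm m 1]
      refine J_mul X Y 1 m ?_ (ih z hz)
      rcases hs with rfl | hs
      · exact hg
      · rw [Set.mem_singleton_iff.1 hs]; exact hh
  obtain ⟨l', hl'⟩ : ∃ l' : List H, l'.map Subtype.val = l := by
    refine ⟨l.attach.map (fun x => ⟨x.1, hl x.1 x.2⟩), ?_⟩
    rw [List.map_map]
    exact List.attach_map_subtype_val l
  have e : dp σ l = MP_d7201b_al_LN.dprod τ l' := by
    rw [← hl']
    unfold dp MP_d7201b_al_LN.dprod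
    rw [List.map_map]; rfl
  rw [e]
  have hl'' : l'.length = n := by rw [← hn, ← hl', List.length_map]
  have h1 := MP_d7201b_al_LN.dprod_mem_G τ hS l'
  rw [hl''] at h1
  refine AddSubgroup.closure_induction (p := fun x _ => x = 0) ?_ rfl ?_ ?_ h1
  · rintro x ⟨k, y, hy, rfl⟩
    rw [J_eq_zero X Y n hw (hF n y hy), mul_zero]
  · intro a b _ _ ha hb; rw [ha, hb, add_zero]
  · intro a _ ha; rw [ha, neg_zero]

/-- The version with logarithms: `σ g = 1 + X + 3 X ^ 2 + X ^ 3` (the exponential mod `5`). -/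
theorem two_of_words (σ : Γ →* B) (g h : Γ) (X Y : B) (hg : σ g - 1 = X + 3 * X ^ 2 + X ^ 3)
    (hh : σ h - 1 = Y + 3 * Y ^ 2 + Y ^ 3) (n : ℕ)
    (hw : ∀ l : List Bool, l.length = n → wd X Y l = 0)
    (l : List Γ) (hl : ∀ x ∈ l, x ∈ Subgroup.closure {g, h}) (hn : l.length = n) :
    dp σ l = 0 := by
  refine two_of_words' σ g h X Y ?_ ?_ n hw l hl hn
  · rw [hg]; exact J_exp X Y (J_X X Y)
  · rw [hh]; exact J_exp X Y (J_Y X Y)

/-- The logarithm mod `5` inverts the exponential: if `x ^ 4 = 0`, `5 = 0` and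
`X = x + 2 x ^ 2 + 2 x ^ 3` then `X ^ 4 = 0` and `x = X + 3 X ^ 2 + X ^ 3`. -/
lemma log_exp (h5 : (5 : B) = 0) (x X : B) (hx : x ^ 4 = 0) (hX : X = x + 2 * x ^ 2 + 2 * x ^ 3) :
    X ^ 4 = 0 ∧ x = X + 3 * X ^ 2 + X ^ 3 := by
  constructor
  · have : X ^ 4 = x ^ 4 * (1 + 2 * x + 2 * x ^ 2) ^ 4 := by
      rw [hX]
      noncomm_ring
    rw [this, hx, zero_mul]
  · have : X + 3 * X ^ 2 + X ^ 3 = x + 5 * (x ^ 2 + 3 * x ^ 3)
        + x ^ 4 * (30 + 42 * x + 44 * x ^ 2 + 36 * x ^ 3 + 24 * x ^ 4 + 8 * x ^ 5) := by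
      rw [hX]
      noncomm_ring
    rw [this, hx, h5]
    simp

end Pool.Agent.Work.MP_d7201b_al.LN
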