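import Mathlib
import Pool.Agent.Work.MP_d7201b_al_LN.Words

/-!
# Finiteness from a finite set of normal words
-/

set_option autoImplicit false

namespace Pool.Agent.Work.MP_d7201b_al.LN

universe u v

variable {B : Type v} [Ring B]

/-- A finite set in a ring with `5 = 0` generates a finite additive group. -/
lemma closure_finite (h5 : (5 : B) = 0) (S : Set B) (hS : S.Finite) :
    (AddSubgroup.closure S : Set B).Finite := by
  have hfg : AddGroup.FG (AddSubgroup.closure S) :=
    (AddGroup.fg_iff_addSubgroup_fg _).2 ((AddSubgroup.fg_iff _).2 ⟨S, rfl, hS⟩)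
  have htor : IsAddTorsion (AddSubgroup.closure S) := by
    rintro ⟨x, hx⟩
    rw [isOfFinAddOrder_iff_nsmul_eq_zero]
    refine ⟨5, by norm_num, ?_⟩
    apply Subtype.ext
    show 5 • x = 0
    rw [nsmul_eq_mul]
    have : ((5 : ℕ) : B) = 0 := by exact_mod_cast h5
    rw [this, zero_mul]
  have := AddCommGroup.finite_of_fg_isAddTorsion (AddSubgroup.closure S) htor
  exact this

/-- If every word outside a finite set `NF` is a combination of words of smaller code, then all
words lie in the span of `NF`. -/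
theorem words_mem_closure (X Y : B) (NF : Set (List Bool)) (code : List Bool → ℕ)
    (hred : ∀ l, l ∉ NF →
      wd X Y l ∈ AddSubgroup.closure {x | ∃ l', code l' < code l ∧ x = wd X Y l'}) :
    ∀ l, wd X Y l ∈ AddSubgroup.closure {x | ∃ l' ∈ NF, x = wd X Y l'} := by
  intro l
  induction h : code l using Nat.strong_induction_on generalizing l with
  | _ n ih =>
    by_cases hl : l ∈ NF
    · exact AddSubgroup.subset_closure ⟨l, hl, rfl⟩
    · refine (AddSubgroup.closure_le _).2 ?_ (hred l hl)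
      rintro x ⟨l', hl', rfl⟩
      exact ih (code l') (h ▸ hl') l' rfl

variable {Γ : Type u} [Group Γ]

lemma J0_closed (σ : Γ →* B) (h5 : (5 : B) = 0) (h4 : ∀ g, (σ g - 1) ^ 4 = 0) (g h : Γ) (X Y : B)
    (hg : σ g - 1 ∈ J X Y 1) (hh : σ h - 1 ∈ J X Y 1) (γ : Γ)
    (hγ : γ ∈ Subgroup.closure {g, h}) : σ γ ∈ J X Y 0 := by
  have h1 : (1 : B) ∈ J X Y 0 := AddSubgroup.subset_closure ⟨[], le_rfl, by simp [wd]⟩
  have hpow : ∀ γ : Γ, σ γ⁻¹ = σ γ ^ 4 := by
    intro γ
    have e5 : (σ γ) ^ 5 = 1 := by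
      have h2 : (σ γ) ^ 5 - 1 = (σ γ - 1) ^ 4 * (σ γ - 1)
          + 5 * ((σ γ) ^ 4 - 2 * (σ γ) ^ 3 + 2 * (σ γ) ^ 2 - σ γ) := by
        generalize σ γ = t
        noncomm_ring
      rw [h4, h5, zero_mul, zero_mul, add_zero] at h2
      exact sub_eq_zero.1 h2
    have h2 : σ γ⁻¹ * σ γ = 1 := by rw [← map_mul]; simp
    calc σ γ⁻¹ = σ γ⁻¹ * (σ γ) ^ 5 := by rw [e5, mul_one]
      _ = (σ γ⁻¹ * σ γ) * σ γ ^ 4 := by rw [pow_succ', mul_assoc]
      _ = σ γ ^ 4 := by rw [h2, one_mul]
  refine Subgroup.closure_induction (p := fun γ _ => σ γ ∈ J X Y 0) ?_ ?_ ?_ ?_ hγ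
  · rintro x (rfl | hx)
    · have := add_mem (J_mono X Y (Nat.zero_le 1) hg) h1
      simpa using this
    · rw [Set.mem_singleton_iff.1 hx]
      have := add_mem (J_mono X Y (Nat.zero_le 1) hh) h1
      simpa using this
  · rw [map_one]; exact h1
  · intro x y _ _ hx hy
    rw [map_mul]
    exact J_mul X Y 0 0 hx hy
  · intro x _ hx
    rw [hpow]
    have h2 := J_mul X Y 0 0 hx hx
    have h4' := J_mul X Y 0 0 h2 h2
    have : σ x ^ 4 = σ x * σ x * (σ x * σ x) := by noncomm_ring
    rw [this]; exact h4'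

/-- Finiteness of the image of a two-generator subgroup from finitely many normal words. -/
theorem fin_of_normal (σ : Γ →* B) (h5 : (5 : B) = 0) (h4 : ∀ g, (σ g - 1) ^ 4 = 0) (g h : Γ)
    (X Y : B) (hg : σ g - 1 = X + 3 * X ^ 2 + X ^ 3) (hh : σ h - 1 = Y + 3 * Y ^ 2 + Y ^ 3)
    (NF : Set (List Bool)) (hNF : NF.Finite) (code : List Bool → ℕ)
    (hred : ∀ l, l ∉ NF →
      wd X Y l ∈ AddSubgroup.closure {x | ∃ l', code l' < code l ∧ x = wd X Y l'}) :
    (σ '' (Subgroup.closure {g, h} : Set Γ)).Finite := by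
  have hfin : (AddSubgroup.closure {x | ∃ l' ∈ NF, x = wd X Y l'} : Set B).Finite := by
    apply closure_finite h5
    have : {x | ∃ l' ∈ NF, x = wd X Y l'} = wd X Y '' NF := by
      ext x; constructor
      · rintro ⟨l, hl, rfl⟩; exact ⟨l, hl, rfl⟩
      · rintro ⟨l, hl, rfl⟩; exact ⟨l, hl, rfl⟩
    rw [this]
    exact hNF.image _
  refine hfin.subset ?_
  rintro _ ⟨γ, hγ, rfl⟩
  have h1 := J0_closed σ h5 h4 g h X Y (by rw [hg]; exact J_exp X Y (J_X X Y))
    (by rw [hh]; exact J_exp X Y (J_Y X Y)) γ hγ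
  refine (AddSubgroup.closure_le _).2 ?_ h1
  rintro x ⟨l, -, rfl⟩
  exact words_mem_closure X Y NF code hred l

/-- Version with lengths: every word of length `n` is a combination of words of smaller code,
where the code is compatible with concatenation and there are finitely many words of each
smaller length. -/
theorem fin_of_leading (σ : Γ →* B) (h5 : (5 : B) = 0) (h4 : ∀ g, (σ g - 1) ^ 4 = 0) (g h : Γ)
    (X Y : B) (hg : σ g - 1 = X + 3 * X ^ 2 + X ^ 3) (hh : σ h - 1 = Y + 3 * Y ^ 2 + Y ^ 3)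
    (n : ℕ) (code : List Bool → ℕ)
    (hcode : ∀ a b l l' : List Bool, code l' < code l → code (a ++ l' ++ b) < code (a ++ l ++ b))
    (hred : ∀ l : List Bool, l.length = n → ∃ a b m, l = a ++ m ++ b ∧
      wd X Y m ∈ AddSubgroup.closure {x | ∃ l', code l' < code m ∧ x = wd X Y l'}) :
    (σ '' (Subgroup.closure {g, h} : Set Γ)).Finite := by
  refine fin_of_normal σ h5 h4 g h X Y hg hh {l | l.length < n} (List.finite_length_lt Bool n)
    code ?_
  intro l hl
  simp only [Set.mem_ofPred_eq, not_lt] at hl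
  obtain ⟨a, b, m, hm, hmem⟩ := hred (l.take n) (by simp [hl])
  have e : l = a ++ m ++ (b ++ l.drop n) := by
    rw [← List.append_assoc, ← hm, List.take_append_drop]
  rw [e, wd_append, wd_append]
  refine AddSubgroup.closure_induction (p := fun x _ => wd X Y a * x * wd X Y (b ++ l.drop n) ∈
    AddSubgroup.closure {x | ∃ l', code l' < code (a ++ m ++ (b ++ l.drop n)) ∧ x = wd X Y l'})
    ?_ ?_ ?_ ?_ hmem
  · rintro x ⟨l', hl', rfl⟩
    refine AddSubgroup.subset_closure ⟨a ++ l' ++ (b ++ l.drop n), hcode _ _ _ _ hl', ?_⟩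
    simp only [wd_append, mul_assoc]
  · simp
  · intro x y _ _ hx hy
    rw [mul_add, add_mul]; exact add_mem hx hy
  · intro x _ hx
    rw [mul_neg, neg_mul]; exact neg_mem hx

end Pool.Agent.Work.MP_d7201b_al.LN
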